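import Pool.Agent.Helper57.GridSat.Final

open Helper57.GridSat

namespace Pool.Agent.Results.MP_cb8ae3_co.AllExponents

/-- For every `d ≥ 2` and every exponent `j` in `{0, 1, ..., d - 2} ∪ {d}` there is a finite
poset `P` (with at least two elements) such that `sat^*([k]^d, P)` has order of magnitude
`k^j`. -/
theorem result (d : ℕ) (hd : 2 ≤ d) (j : ℕ) (hj : j ≤ d - 2 ∨ j = d) :
    ∃ (P : Type) (_ : Fintype P) (_ : PartialOrder P) (_ : Nontrivial P),
      SameOrder (sat P d) (fun k => k ^ j) :=
  attained_all hd hj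

end Pool.Agent.Results.MP_cb8ae3_co.AllExponents
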