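import Pool.Agent.Helper57.GridSat.DimGood

open Helper57.GridSat

namespace Pool.Agent.Results.MP_cb8ae3_co.DimensionBound

/-- Let `P` be a finite nonempty poset and `d ≥ 1`. If no `[k]^d` contains a strong copy of `P`
(order dimension more than `d`), then `sat^*([k]^d, P) = k^d` for all `k`. If some `[N]^m` with
`1 ≤ m ≤ d` contains a strong copy of `P` (order dimension at most `m`), then
`sat^*([k]^d, P) = O(k^(m-1))`. -/
theorem result (d : ℕ) (P : Type) [Fintype P] [PartialOrder P] [Nonempty P] :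
    ((∀ k, ¬ StrongCopy P (Finset.univ : Finset (Grid d k))) → ∀ k, sat P d k = k ^ d) ∧
    ∀ m, 1 ≤ m → m ≤ d → (∃ N, StrongCopy P (Finset.univ : Finset (Grid m N))) →
      ∃ C : ℕ, ∀ k, 1 ≤ k → sat P d k ≤ C * k ^ (m - 1) :=
  ⟨fun h k => sat_eq_pow (h k), fun _ hm hmd ⟨_, hN⟩ => dimension_bound hm hmd hN⟩

end Pool.Agent.Results.MP_cb8ae3_co.DimensionBound
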