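import Pool.Agent.Helper57.GridSat.Final

open Helper57.GridSat

namespace Pool.Agent.Results.MP_cb8ae3_co.PlaneComplete

/-- The complete answer for `d = 1` and `d = 2`: the orders of magnitude of
`sat^*([k]^d, P)`, `P` a finite poset with at least two elements, are exactly
`1, k, ..., k^d`. -/
theorem result (d : ℕ) (hd : 1 ≤ d) (hd2 : d ≤ 2) :
    (∀ (P : Type) [Fintype P] [PartialOrder P] [Nontrivial P],
      ∃ j ≤ d, SameOrder (sat P d) (fun k => k ^ j)) ∧
    ∀ j ≤ d, ∃ (P : Type) (_ : Fintype P) (_ : PartialOrder P) (_ : Nontrivial P),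
      SameOrder (sat P d) (fun k => k ^ j) := by
  refine ⟨fun P _ _ _ => small_dim hd hd2 P, fun j hj => ?_⟩
  have h : j = 0 ∨ j = 1 ∨ j = d := by omega
  rcases h with rfl | rfl | rfl
  · exact attained_zero d
  · exact attained_one hd
  · exact attained_top j

end Pool.Agent.Results.MP_cb8ae3_co.PlaneComplete
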